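import Pool.Agent.H491Z.AFBridge

/-! Every analytic equivalence relation is Borel reducible to bi-embeddability of simple nuclear
AF algebras. -/

namespace Pool.Agent.Results.MP_5f80dd_lc.AComplete

open Pool.Agent.H491Z.AFS

theorem result (X : Type) [TopologicalSpace X] [PolishSpace X] [MeasurableSpace X] [BorelSpace X]
    (E : X → X → Prop) (hE : Equivalence E)
    (hA : MeasureTheory.AnalyticSet {p : X × X | E p.1 p.2}) :
    ∃ f : X → Gamma H, Measurable f ∧ (∀ x, SimpleNuclearAF (f x)) ∧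
      ∀ x y, E x y ↔ BiEmb (f x) (f y) := by
  obtain ⟨f, h1, h2, h3⟩ := main' X E hE.refl (fun _ _ _ => hE.trans) hA
  exact ⟨f, h1, h2, fun x y => ⟨fun h => ⟨(h3 x y).1 h, (h3 y x).1 (hE.symm h)⟩,
    fun h => (h3 x y).2 h.1⟩⟩

end Pool.Agent.Results.MP_5f80dd_lc.AComplete
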